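import Pool.Agent.Work.MP_14a437_ag.D.Split

/-!
# D/Conn  (S) : connectedness of the generators of an indecomposable category

Apply `hInd` to `Ext (Shifts P)` and `Ext (Shifts Q)` (stable under shift by `Ext_Shifts_shiftn`;
orthogonal by `Ext_orth` with `n = 0` and `(shiftFunctorZero C ℤ).app`; every object splits by
`Ext_split`).
-/

open CategoryTheory CategoryTheory.Limits CategoryTheory.Pretriangulated

universe v u

namespace MP_14a437_ag

variable {C : Type u} [Category.{v} C] [Preadditive C] [HasZeroObject C] [HasShift C ℤ]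
  [∀ n : ℤ, (shiftFunctor C n).Additive] [Pretriangulated C] [IsTriangulated C]

theorem connected_generators (hInd : IsIndecomposable C) {T : ObjectProperty C}
    (hgen : ∀ E : C, Ext (Shifts T) E) (P Q : ObjectProperty C) (hT : ∀ X, T X → P X ∨ Q X)
    (hPQ : ∀ X Y : C, P X → Q Y → ∀ (n : ℤ) (f : X ⟶ Y⟦n⟧), f = 0)
    (hQP : ∀ X Y : C, P X → Q Y → ∀ (n : ℤ) (f : Y ⟶ X⟦n⟧), f = 0) :
    (∀ X, P X → IsZero X) ∨ (∀ X, Q X → IsZero X) := by
  have hof : ∀ (R : ObjectProperty C) (X : C), R X → Ext (Shifts R) X := fun R X hX =>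
    Ext.of ⟨X, 0, hX, ⟨((shiftFunctorZero C ℤ).app X).symm⟩⟩
  have horth : ∀ (R R' : ObjectProperty C),
      (∀ X Y : C, R X → R' Y → ∀ (n : ℤ) (f : X ⟶ Y⟦n⟧), f = 0) →
      ∀ X Y : C, Ext (Shifts R) X → Ext (Shifts R') Y → ∀ f : X ⟶ Y, f = 0 := by
    intro R R' h X Y hX hY f
    have h1 := Ext_orth h hX hY 0 (f ≫ ((shiftFunctorZero C ℤ).app Y).inv)
    have h2 : f = (f ≫ ((shiftFunctorZero C ℤ).app Y).inv) ≫ ((shiftFunctorZero C ℤ).app Y).hom := by
      rw [Category.assoc, Iso.inv_hom_id, Category.comp_id]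
    rw [h2, h1, zero_comp]
  have hstab : ∀ R : ObjectProperty C, ObjectProperty.IsStableUnderShift (fun X => Ext (Shifts R) X) ℤ :=
    fun R => ⟨fun n => ⟨fun X hX => Ext_Shifts_shiftn n hX⟩⟩
  rcases hInd (fun X => Ext (Shifts P) X) (fun X => Ext (Shifts Q) X) (hstab P) (hstab Q)
    (horth P Q hPQ)
    (fun X Y hX hY f => horth Q P (fun X' Y' hX' hY' => hQP Y' X' hY' hX') Y X hY hX f)
    (fun E => Ext_split hPQ hQP (Ext_mono (fun X hX => by
      obtain ⟨Y, n, hY, e⟩ := hX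
      exact ⟨Y, n, hT Y hY, e⟩) (hgen E))) with h | h
  · exact Or.inl fun X hX => h X (hof P X hX)
  · exact Or.inr fun X hX => h X (hof Q X hX)

end MP_14a437_ag
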