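import Pool.Agent.Work.MP_14a437_ag.F.Gen

/-!
# D/Orth  (S-M) : orthogonality passes to extension closures

First `X ≅ X'⟦a⟧`, `Y ≅ Y'⟦b⟧` with `P X'`, `Q Y'`: a map `X'⟦a⟧ ⟶ Y'⟦b⟧⟦n⟧` is, up to isomorphism, the
shift by `a` of a map `X' ⟶ Y'⟦b+n-a⟧` (`shiftFunctor C (-a)` is faithful).  Then induction on
`hX` (for all `n`, `Triangle.yoneda_exact₂`) and on `hY` (`Triangle.coyoneda_exact₂` for the shifted
triangle `Triangle.shift_distinguished`).
-/

open CategoryTheory CategoryTheory.Limits CategoryTheory.Pretriangulated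

universe v u

namespace MP_14a437_ag

variable {C : Type u} [Category.{v} C] [Preadditive C] [HasZeroObject C] [HasShift C ℤ]
  [∀ n : ℤ, (shiftFunctor C n).Additive] [Pretriangulated C] [IsTriangulated C]

omit [IsTriangulated C] in
private theorem orth_base {X' Y' X Y : C} (h : ∀ (n : ℤ) (f : X' ⟶ Y'⟦n⟧), f = 0) {a b : ℤ}
    (eX : X ≅ X'⟦a⟧) (eY : Y ≅ Y'⟦b⟧) (n : ℤ) (f : X ⟶ Y⟦n⟧) : f = 0 := by
  have key : ∀ (m : ℤ) (g : X'⟦a⟧ ⟶ Y'⟦m⟧), g = 0 := by
    intro m g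
    obtain ⟨u, hu⟩ := (shiftFunctor C a).map_surjective
      (g ≫ (shiftFunctorAdd' C (m - a) a m (by omega)).hom.app Y')
    rw [h (m - a) u, Functor.map_zero] at hu
    have h2 : (g ≫ (shiftFunctorAdd' C (m - a) a m (by omega)).hom.app Y') ≫
        (shiftFunctorAdd' C (m - a) a m (by omega)).inv.app Y' = 0 := by
      rw [← hu, zero_comp]
    simpa using h2
  have h1 := key (b + n) (eX.inv ≫ f ≫ (shiftFunctor C n).map eY.hom ≫
    (shiftFunctorAdd C b n).inv.app Y')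
  have h2 : eX.hom ≫ (eX.inv ≫ f ≫ (shiftFunctor C n).map eY.hom ≫
    (shiftFunctorAdd C b n).inv.app Y') ≫ (shiftFunctorAdd C b n).hom.app Y' ≫
      (shiftFunctor C n).map eY.inv = 0 := by
    rw [h1, zero_comp, comp_zero]
  simpa [← Functor.map_comp] using h2

omit [IsTriangulated C] in
private theorem orth_right {P Q : ObjectProperty C}
    (h : ∀ X Y : C, P X → Q Y → ∀ (n : ℤ) (f : X ⟶ Y⟦n⟧), f = 0) {X Y : C}
    (hX : Shifts P X) (hY : Ext (Shifts Q) Y) : ∀ (n : ℤ) (f : X ⟶ Y⟦n⟧), f = 0 := by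
  induction hY with
  | zero h0 =>
    intro n f
    exact ((shiftFunctor C n).map_isZero h0).eq_of_tgt _ _
  | of h0 =>
    obtain ⟨X', a, hX', ⟨eX⟩⟩ := hX
    obtain ⟨Y', b, hY', ⟨eY⟩⟩ := h0
    intro n f
    exact orth_base (h X' Y' hX' hY') eX eY n f
  | ext f g k hT _ _ ihA ihB =>
    intro n u
    have hT' := Triangle.shift_distinguished _ hT n
    obtain ⟨w, hw⟩ := Triangle.coyoneda_exact₂ _ hT' u (ihB n _)
    rw [hw]
    have h0 := ihA n w
    rw [h0]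
    exact zero_comp

omit [IsTriangulated C] in
theorem Ext_orth {P Q : ObjectProperty C}
    (h : ∀ X Y : C, P X → Q Y → ∀ (n : ℤ) (f : X ⟶ Y⟦n⟧), f = 0) {X Y : C}
    (hX : Ext (Shifts P) X) (hY : Ext (Shifts Q) Y) (n : ℤ) (f : X ⟶ Y⟦n⟧) : f = 0 := by
  induction hX with
  | zero h0 => exact h0.eq_of_src _ _
  | of h0 => exact orth_right h h0 hY n f
  | ext p q r hT _ _ ihA ihB =>
    obtain ⟨w, hw⟩ := Triangle.yoneda_exact₂ _ hT f (ihA _)
    have h0 := ihB w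
    rw [hw, h0]
    exact comp_zero

end MP_14a437_ag
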