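import Pool.Agent.Work.MP_14a437_ag.D.Orth

/-!
# D/Split  (M-L) : an orthogonal partition of the generators splits every object

Induction on `hE`.  For `A -> E -> B -δ-> A[1]` with `A ≅ X₁ ⊞ Y₁`, `B ≅ X₂ ⊞ Y₂`
(`Xᵢ ∈ Ext (Shifts P)`, `Yᵢ ∈ Ext (Shifts Q)`) the components `X₂ ⟶ Y₁[1]`, `Y₂ ⟶ X₁[1]` of `δ` vanish
(`Ext_orth`).  Complete the components `X₂ ⟶ X₁[1]` and `Y₂ ⟶ Y₁[1]` to triangles
`X₁ → X → X₂`, `Y₁ → Y → Y₂` (`distinguished_cocone_triangle₂`); the direct sum of two distinguished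
triangles is distinguished (`productTriangle_distinguished` over a two element type; or a direct
argument), its third map is isomorphic to `δ`, so `E ≅ X ⊞ Y` (`exists_iso_of_arrow_iso` after rotation,
or `isoTriangleOfIso₁₃`).
Alternative without sums of triangles: construct with octahedra a triangle `X → E → Y` with
`X ∈ Ext (Shifts P)`, `Y ∈ Ext (Shifts Q)`; then `Y ⟶ X[1]` is zero and
`exists_iso_binaryBiproduct_of_distTriang` gives the splitting.
-/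

open CategoryTheory CategoryTheory.Limits CategoryTheory.Pretriangulated ZeroObject

universe v u

namespace MP_14a437_ag

variable {C : Type u} [Category.{v} C] [Preadditive C] [HasZeroObject C] [HasShift C ℤ]
  [∀ n : ℤ, (shiftFunctor C n).Additive] [Pretriangulated C] [IsTriangulated C]

omit [IsTriangulated C] in
private theorem isoB (Z : Bool → C) : Nonempty ((⨁ Z) ≅ Z true ⊞ Z false) := by
  refine ⟨⟨biprod.lift (biproduct.π Z true) (biproduct.π Z false),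
    biprod.desc (biproduct.ι Z true) (biproduct.ι Z false), ?_, ?_⟩⟩
  · rw [biprod.lift_desc, ← biproduct.total, Fintype.sum_bool]
  · apply biprod.hom_ext
    · apply biprod.hom_ext'
      · simp
      · simp
    · apply biprod.hom_ext'
      · simp
      · simp

omit [IsTriangulated C] in
private theorem split_aux {P Q : ObjectProperty C}
    (hPQ : ∀ X Y : C, P X → Q Y → ∀ (n : ℤ) (f : X ⟶ Y⟦n⟧), f = 0)
    (hQP : ∀ X Y : C, P X → Q Y → ∀ (n : ℤ) (f : Y ⟶ X⟦n⟧), f = 0) {E : C}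
    (hE : Ext (Shifts (fun X => P X ∨ Q X)) E) :
    ∃ Z : Bool → C, Ext (Shifts P) (Z true) ∧ Ext (Shifts Q) (Z false) ∧
      Nonempty (E ≅ ⨁ Z) := by
  have hQP' : ∀ X Y : C, Q X → P Y → ∀ (n : ℤ) (f : X ⟶ Y⟦n⟧), f = 0 :=
    fun X Y hX hY n f => hQP Y X hY hX n f
  induction hE with
  | @zero E h0 =>
    refine ⟨fun _ => E, Ext.zero h0, Ext.zero h0, ?_⟩
    obtain ⟨e⟩ := isoB (fun _ : Bool => E)
    exact ⟨isoBiprodZero (Y := E) h0 ≪≫ e.symm⟩
  | @of E h0 =>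
    obtain ⟨Y, n, hY, ⟨e0⟩⟩ := h0
    rcases hY with hY | hY
    · let Z : Bool → C := fun j => cond j E (0 : C)
      obtain ⟨e⟩ := isoB Z
      refine ⟨Z, Ext.of ⟨Y, n, hY, ⟨e0⟩⟩, Ext.zero (isZero_zero C), ?_⟩
      exact ⟨isoBiprodZero (X := E) (Y := (0 : C)) (isZero_zero C) ≪≫ e.symm⟩
    · let Z : Bool → C := fun j => cond j (0 : C) E
      obtain ⟨e⟩ := isoB Z
      refine ⟨Z, Ext.zero (isZero_zero C), Ext.of ⟨Y, n, hY, ⟨e0⟩⟩, ?_⟩
      exact ⟨isoZeroBiprod (X := (0 : C)) (Y := E) (isZero_zero C) ≪≫ e.symm⟩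
  | @ext A E B f g δ hT _ _ ihA ihB =>
    obtain ⟨Z₁, hP₁, hQ₁, ⟨e₁⟩⟩ := ihA
    obtain ⟨Z₂, hP₂, hQ₂, ⟨e₂⟩⟩ := ihB
    let d : ∀ j : Bool, (⨁ Z₂) ⟶ (Z₁ j)⟦(1 : ℤ)⟧ := fun j =>
      e₂.inv ≫ δ ≫ (shiftFunctor C (1 : ℤ)).map (e₁.hom ≫ biproduct.π Z₁ j)
    let a : ∀ j : Bool, Z₂ j ⟶ (Z₁ j)⟦(1 : ℤ)⟧ := fun j => biproduct.ι Z₂ j ≫ d j
    have hd : ∀ j, d j = biproduct.π Z₂ j ≫ a j := by
      intro j
      apply biproduct.hom_ext'
      intro i
      by_cases hij : i = j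
      · subst hij
        rw [biproduct.ι_π_self_assoc]
      · rw [biproduct.ι_π_ne_assoc _ hij, zero_comp]
        cases i <;> cases j
        · exact absurd rfl hij
        · exact Ext_orth hQP' hQ₂ hP₁ 1 _
        · exact Ext_orth hPQ hP₂ hQ₁ 1 _
        · exact absurd rfl hij
    choose W u v hW using fun j : Bool => distinguished_cocone_triangle₂ (a j)
    let T : Bool → Triangle C := fun j => Triangle.mk (u j) (v j) (a j)
    have hTd : productTriangle T ∈ distTriang C := productTriangle_distinguished T hW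
    refine ⟨W, Ext.ext (u true) (v true) (a true) (hW true) hP₁ hP₂,
      Ext.ext (u false) (v false) (a false) (hW false) hQ₁ hQ₂, ?_⟩
    let i₁ : A ≅ ∏ᶜ Z₁ := e₁ ≪≫ biproduct.isoProduct Z₁
    let i₃ : B ≅ ∏ᶜ Z₂ := e₂ ≪≫ biproduct.isoProduct Z₂
    have comm : δ ≫ (shiftFunctor C (1 : ℤ)).map i₁.hom = i₃.hom ≫
        Limits.Pi.map (fun j => a j) ≫ inv (piComparison (shiftFunctor C (1 : ℤ)) Z₁) := by
      rw [← cancel_mono (piComparison (shiftFunctor C (1 : ℤ)) Z₁)]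
      simp only [Category.assoc, IsIso.inv_hom_id, Category.comp_id]
      apply Limits.Pi.hom_ext
      intro j
      have l1 : (δ ≫ (shiftFunctor C (1 : ℤ)).map i₁.hom ≫
          piComparison (shiftFunctor C (1 : ℤ)) Z₁) ≫ Pi.π _ j =
          δ ≫ (shiftFunctor C (1 : ℤ)).map (e₁.hom ≫ biproduct.π Z₁ j) := by
        rw [Category.assoc, Category.assoc, piComparison_comp_π, ← Functor.map_comp]
        congr 2
        simp [i₁]
      have l2 : (i₃.hom ≫ Limits.Pi.map (fun j => a j)) ≫ Pi.π _ j =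
          e₂.hom ≫ biproduct.π Z₂ j ≫ a j := by
        rw [Category.assoc, Limits.Pi.map_π]
        simp [i₃]
      rw [l1, l2, ← hd j]
      simp [d]
    exact ⟨Triangle.π₂.mapIso (isoTriangleOfIso₁₃ (Triangle.mk f g δ) (productTriangle T)
      hT hTd i₁ i₃ comm) ≪≫ (biproduct.isoProduct W).symm⟩

theorem Ext_split {P Q : ObjectProperty C}
    (hPQ : ∀ X Y : C, P X → Q Y → ∀ (n : ℤ) (f : X ⟶ Y⟦n⟧), f = 0)
    (hQP : ∀ X Y : C, P X → Q Y → ∀ (n : ℤ) (f : Y ⟶ X⟦n⟧), f = 0) {E : C}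
    (hE : Ext (Shifts (fun X => P X ∨ Q X)) E) :
    ∃ X Y : C, Ext (Shifts P) X ∧ Ext (Shifts Q) Y ∧ Nonempty (E ≅ X ⊞ Y) := by
  obtain ⟨Z, h1, h2, ⟨e⟩⟩ := split_aux hPQ hQP hE
  obtain ⟨e'⟩ := isoB Z
  exact ⟨Z true, Z false, h1, h2, ⟨e ≪≫ e'⟩⟩

end MP_14a437_ag
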